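import Pool.Agent.Helper67.SQ.Main

/-!
# Quasi-isometric hyperbolic planes in Sol are quasivertical

The definitions are in `Pool/Agent/Helper67/SQ/Defs.lean`.

* `Sol` is the set of points `(x, y, t)` and `solDist` is the Riemannian distance of the metric
  `e^{2t} dx² + e^{-2t} dy² + dt²`: the infimum of the lengths of the piecewise `C¹` curves which
  join the two points (`IsArc P Q ℓ`: a `C¹` curve from `P` to `Q` of length `ℓ`;
  `IsPath P Q ℓ`: a finite concatenation of such curves of total length `ℓ`);
* `UpperHalfPlane` with Mathlib's distance is the hyperbolic plane of curvature `-1`;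
* `IsQIEmb K C φ`: `φ` is a `(K, C)`-quasi-isometric embedding (not assumed continuous);
* `IsQuasivertical A φ`: for every `p` there is a vertical line `{(x₀, y₀, τ)}` such that `φ p` is
  at distance at most `A` from the line and every point of the line is at distance at most `A` from
  the image of `φ`.

The theorem says that for all `K ≥ 1` and `C ≥ 0` there is a constant `A = A(K, C)` such that every
`(K, C)`-quasi-isometric embedding of the hyperbolic plane in Sol is `A`-quasivertical.
-/

set_option autoImplicit false

namespace Pool.Agent.Results.MP_9b5db0_gt.Quasivertical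

open Helper67.SQ

/-- For all `K ≥ 1` and `C ≥ 0` there is `A ≥ 0` such that every `(K, C)`-quasi-isometric embedding
of the hyperbolic plane in Sol is `A`-quasivertical. -/
theorem result (K C : ℝ) (hK : 1 ≤ K) (hC : 0 ≤ C) :
    ∃ A : ℝ, 0 ≤ A ∧ ∀ φ : UpperHalfPlane → Sol, IsQIEmb K C φ → IsQuasivertical A φ :=
  main K C hK hC

end Pool.Agent.Results.MP_9b5db0_gt.Quasivertical
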